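import Pool.Agent.W622.ETG.Stm

set_option autoImplicit false
set_option linter.unusedSectionVars false

/-! # ELG: BLK -/

namespace Pool.Agent.W699.ELG

open Pool.Agent.W622.ETG Module

section
variable {V : Type} [AddCommGroup V] [Module (ZMod 2) V] [Finite V] {e : V}

theorem wd_eq_zero {p g : Dl V} (hp : p ≠ 0) (h : wd e p g = 0) : g = 0 ∨ g = p := by
  have : ∃ a, p a = 1 := by
    by_contra hc
    push Not at hc
    exact hp (LinearMap.ext fun a => z_ne' (hc a))
  obtain ⟨a, ha⟩ := this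
  have h1 : wd e p g a = 0 := by rw [h]; rfl
  rw [wd_val_one' ha] at h1
  have h2 : g = (g a + g e) • p := add_eq_zero'.1 h1
  rcases z01 (g a + g e) with h3 | h3
  · left; rw [h2, h3, zero_smul]
  · right
    rw [h3, one_smul] at h2
    exact h2

theorem exists_not_mem {X : DSub V} {S : DSub V} (h : finrank (ZMod 2) S < finrank (ZMod 2) X) :
    ∃ g ∈ X, g ∉ S := by
  by_contra hc
  push Not at hc
  exact absurd (Submodule.finrank_mono (hc : X ≤ S)) (by omega)

theorem wd_mem {X : DSub V} {p g : Dl V} (hp : p ∈ X) (hg : g ∈ X) (a : V) : wd e p g a ∈ X := by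
  rw [wd_apply]
  exact X.add_mem (X.add_mem (X.smul_mem _ hg) (X.smul_mem _ hp)) (X.smul_mem _ hp)

theorem wd_mem_res {A : Fam V} {X Y : DSub V} {p g : Dl V} (hXY : X ≤ Y) (hp : p ∈ X)
    (hg : g ∈ X) (h : wd e p g ∈ A) : wd e p g ∈ res A Y :=
  ⟨h, fun a => hXY (wd_mem hp hg a)⟩

theorem cone_mono {A B : Fam V} (h : A ≤ B) {X : DSub V} (hX : IsCone e A X) : IsCone e B X := by
  obtain ⟨p, h1, h2, h3, h4, h5⟩ := hX
  exact ⟨p, h1, h2, h3, h4, fun g hg => h (h5 g hg)⟩

/-- in a cone there are two different nonzero members with the same apex -/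
theorem cone_two {X : DSub V} {p : Dl V} (h3 : 3 ≤ finrank (ZMod 2) X) (hp0 : p ≠ 0) :
    ∃ g ∈ X, ∃ g' ∈ X, wd e p g ≠ 0 ∧ wd e p g' ≠ 0 ∧ wd e p g ≠ wd e p g' := by
  have hf1 : finrank (ZMod 2) (Submodule.span (ZMod 2) {p}) ≤ 1 := by
    have := finrank_span_le_card (R := ZMod 2) ({p} : Set (Dl V))
    simpa using this
  obtain ⟨g, hg, hg'⟩ := exists_not_mem (X := X) (S := Submodule.span (ZMod 2) {p}) (by omega)
  have hf2 : finrank (ZMod 2) (Submodule.span (ZMod 2) {p, g}) ≤ 2 := by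
    classical
    have h1 := finrank_span_finset_le_card (R := ZMod 2) ({p, g} : Finset (Dl V))
    have h2 := Finset.card_le_two (a := p) (b := g)
    rw [Finset.coe_insert, Finset.coe_singleton] at h1
    exact le_trans h1 h2
  obtain ⟨g', hh, hh'⟩ := exists_not_mem (X := X) (S := Submodule.span (ZMod 2) {p, g})
    (by omega)
  rw [span_one_mem] at hg'
  rw [span_pair_mem] at hh'
  push Not at hg' hh'
  refine ⟨g, hg, g', hh, ?_, ?_, ?_⟩
  · intro h
    rcases wd_eq_zero hp0 h with h | h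
    · exact hg'.1 h
    · exact hg'.2 h
  · intro h
    rcases wd_eq_zero hp0 h with h | h
    · exact hh'.1 h
    · exact hh'.2.1 h
  · intro h
    have h1 : wd e p (g + g') = 0 := by rw [map_add, h]; exact vadd (V := Frm V) _
    rcases wd_eq_zero hp0 h1 with h | h
    · exact hh'.2.2.1 (Pool.Agent.W622.ETC.add_eq_zero'.1 h).symm
    · apply hh'.2.2.2
      rw [← h, add_assoc, add_comm g', ← add_assoc, vadd, zero_add]

end

theorem t_BLK (hES1 : S_ES1) (hES2 : S_ES2) : S_BLK := by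
  intro V _ _ _ e A X Y s hA hB hXY hs
  rcases hB with ⟨⟨p, h3, hp, hp0, hpe, hg⟩, hmax⟩ | ⟨ω, ⟨h1, h2, h3⟩, h4, h5⟩
  · obtain ⟨Z, hZ, hXZ⟩ := hES1 V e (res A Y) s X p (hA.res Y) hs hp0 hp hpe (Or.inl h3)
      (fun g hg' => wd_mem_res hXY hp hg' (hg g hg'))
    rcases hs.2.2 Z hZ with ⟨ω, ⟨w1, w2, w3⟩, w4⟩ | hc
    · exfalso
      obtain ⟨g, hgX, g', hgX', n1, n2, n3⟩ := cone_two (e := e) h3 hp0
      have key : ∀ g ∈ X, wd e p g ≠ 0 → wd e p g = ω := by
        intro g hgX hn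
        rcases w3 _ (wd_mem_res hXY hp hgX (hg g hgX)) (by
          rw [← w4]
          exact sp_le.2 fun a => hXZ (wd_mem hp hgX a)) with h | h
        · exact absurd h hn
        · exact h
      exact n3 ((key g hgX n1).trans (key g' hgX' n2).symm)
    · rw [← hmax Z (cone_mono (res_le A Y) hc) hXZ]
      exact hZ
  · have hω : ω ∈ res A Y := mem_res'.2 ⟨h1, h4.symm.le.trans hXY⟩
    obtain ⟨Z, hZ, hXZ⟩ := hES2 V e (res A Y) s ω (hA.res Y) hs
      ⟨hω, h2, fun η hη => h3 η hη.1⟩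
    rcases hs.2.2 Z hZ with ⟨ω', ⟨w1, w2, w3⟩, w4⟩ | hc
    · rcases w3 ω hω (by rw [← w4]; exact hXZ) with h | h
      · exact absurd h h2
      · rw [h4, h, ← w4]
        exact hZ
    · exact absurd (h4.le.trans hXZ) (h5 Z (cone_mono (res_le A Y) hc))

end Pool.Agent.W699.ELG
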